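import Pool.Agent.H30.PEH.Conv

/-!
Completely integrable Reeb flows with positive topological entropy on the standard contact
spheres of dimension `2n - 1`, for every `n ≥ 6`.
-/

set_option autoImplicit false

namespace Pool.Agent.Results.MP_f1b82a_gt.PosEntropyHighDim

open scoped ContDiff
open Pool.Agent.H30.PEH

/-- Let `n ≥ 6` and let `E` be a complex inner product space of dimension `n` (so `E = ℂ^n`, and
its unit sphere `S` is the standard contact sphere of dimension `2n - 1`). There is a contact form
`α = f λ₀` on `S`, with `f` smooth and positive, whose Reeb flow exists for all times, is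
completely integrable and has positive topological entropy. -/
theorem result (E : Type) [NormedAddCommGroup E] [InnerProductSpace ℂ E] (n : ℕ) (hn : 6 ≤ n)
    (hE : Module.finrank ℂ E = n) : ∃ f : E → ℝ,
    (∀ z, z ≠ 0 → 0 < f z) ∧ ContDiffOn ℝ ∞ f {0}ᶜ ∧ Integrable f n ∧
    ∃ φ : ℝ → E → E, Flow f φ ∧ 0 < Dynamics.coverEntropy (φ 1) {z | ‖z‖ = 1} :=
  main E n hn hE

end Pool.Agent.Results.MP_f1b82a_gt.PosEntropyHighDim
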